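import Pool.Agent.N363.CDE.Local

/-!
# Maximal chains as words
-/

set_option autoImplicit false

namespace Pool.Agent.N363.CDE

open Finset

variable {m : ℕ}

/-- The shape after `j` letters of the word `w`. -/
def Sh {L : ℕ} (w : Fin L → Fin m) (j : ℕ) : Fin m → ℕ :=
  fun i => (univ.filter (fun t : Fin L => (t : ℕ) < j ∧ w t = i)).card

theorem Sh_zero {L : ℕ} (w : Fin L → Fin m) : Sh w 0 = fun _ => 0 := by
  funext i
  simp [Sh]

theorem Sh_snoc {L : ℕ} (w : Fin L → Fin m) (i : Fin m) {j : ℕ} (hj : j ≤ L) :
    Sh (Fin.snoc w i : Fin (L + 1) → Fin m) j = Sh w j := by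
  funext r
  unfold Sh
  rw [Fin.univ_castSuccEmb, filter_cons_of_neg, filter_map, card_map]
  · congr 1
    ext t
    rw [mem_filter, mem_filter]
    simp
  · simp only [Fin.val_last, not_and]
    intro h
    omega

theorem Sh_snoc_last {L : ℕ} (w : Fin L → Fin m) (i : Fin m) :
    Sh (Fin.snoc w i : Fin (L + 1) → Fin m) (L + 1) = up i (Sh w L) := by
  funext r
  unfold up
  by_cases hr : r = i
  · subst hr
    rw [Function.update_self]
    unfold Sh
    rw [Fin.univ_castSuccEmb, filter_cons_of_pos, card_cons, filter_map, card_map]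
    · congr 2
      ext t
      rw [mem_filter, mem_filter]
      simp
      try omega
    · simp
  · rw [Function.update_of_ne hr]
    unfold Sh
    rw [Fin.univ_castSuccEmb, filter_cons_of_neg, filter_map, card_map]
    · congr 1
      ext t
      rw [mem_filter, mem_filter]
      simp
      try omega
    · simp only [Fin.snoc_last, not_and]
      intro _ h
      exact hr h.symm

theorem up_dn {i : Fin m} {y : Fin m → ℕ} (h : 0 < y i) : up i (dn i y) = y := by
  unfold up dn
  rw [Function.update_self, Function.update_idem, Nat.sub_add_cancel h, Function.update_eq_self]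

theorem dn_up (i : Fin m) (y : Fin m → ℕ) : dn i (up i y) = y := by
  unfold up dn
  rw [Function.update_self, Function.update_idem, Nat.add_sub_cancel, Function.update_eq_self]

theorem up_eq_iff (i : Fin m) (y z : Fin m → ℕ) : up i z = y ↔ 0 < y i ∧ z = dn i y := by
  constructor
  · rintro rfl
    refine ⟨by simp [up], (dn_up i z).symm⟩
  · rintro ⟨h, rfl⟩
    exact up_dn h

/-- The word `w` is a saturated chain in `V` from the empty shape to `y`. -/
def Cond (V : Set (Fin m → ℕ)) {L : ℕ} (w : Fin L → Fin m) (y : Fin m → ℕ) : Prop :=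
  (∀ j ≤ L, Sh w j ∈ V) ∧ Sh w L = y

theorem cond_snoc (V : Set (Fin m → ℕ)) {L : ℕ} (w : Fin L → Fin m) (i : Fin m)
    (y : Fin m → ℕ) : Cond V (Fin.snoc w i : Fin (L + 1) → Fin m) y ↔
      y ∈ V ∧ 0 < y i ∧ Cond V w (dn i y) := by
  unfold Cond
  rw [Sh_snoc_last, up_eq_iff]
  constructor
  · rintro ⟨h1, h2, h3⟩
    have h4 := h1 (L + 1) le_rfl
    rw [Sh_snoc_last, h3, up_dn h2] at h4
    refine ⟨h4, h2, fun j hj => ?_, h3⟩
    have := h1 j (by omega)
    rwa [Sh_snoc w i hj] at this
  · rintro ⟨h1, h2, h3, h4⟩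
    refine ⟨fun j hj => ?_, h2, h4⟩
    rcases Nat.lt_or_ge L j with h5 | h5
    · have : j = L + 1 := by omega
      rw [this, Sh_snoc_last, h4, up_dn h2]
      exact h1
    · rw [Sh_snoc w i h5]
      exact h3 j h5

open Classical in
/-- The sum of `F` over the chains to `y`. -/
noncomputable def Sm (V : Set (Fin m → ℕ)) {L : ℕ} (F : (Fin L → Fin m) → ℚ)
    (y : Fin m → ℕ) : ℚ := ∑ w : Fin L → Fin m, if Cond V w y then F w else 0

theorem Sm_succ (V : Set (Fin m → ℕ)) {L : ℕ} (F : (Fin (L + 1) → Fin m) → ℚ)
    {y : Fin m → ℕ} (hy : y ∈ V) :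
    Sm V F y = ∑ i : Fin m, if 0 < y i then Sm V (fun w => F (Fin.snoc w i)) (dn i y) else 0 := by
  classical
  unfold Sm
  rw [← Equiv.sum_comp (Fin.snocEquiv (fun _ : Fin (L + 1) => Fin m)), Fintype.sum_prod_type]
  apply sum_congr rfl
  intro i _
  by_cases hi : 0 < y i
  · rw [if_pos hi]
    apply sum_congr rfl
    intro w _
    have h1 : (Fin.snocEquiv (fun _ : Fin (L + 1) => Fin m)) (i, w) = Fin.snoc w i := rfl
    rw [h1]
    simp only [cond_snoc, hy, hi, true_and]
  · rw [if_neg hi]
    apply sum_eq_zero
    intro w _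
    have h1 : (Fin.snocEquiv (fun _ : Fin (L + 1) => Fin m)) (i, w) = Fin.snoc w i := rfl
    rw [h1, if_neg]
    rw [cond_snoc]
    exact fun h => hi h.2.1

theorem Sm_notMem (V : Set (Fin m → ℕ)) {L : ℕ} (F : (Fin L → Fin m) → ℚ)
    {y : Fin m → ℕ} (hy : y ∉ V) : Sm V F y = 0 := by
  unfold Sm
  apply sum_eq_zero
  intro w _
  rw [if_neg]
  rintro ⟨h1, h2⟩
  exact hy (h2 ▸ h1 L le_rfl)

theorem Sm_add (V : Set (Fin m → ℕ)) {L : ℕ} (F F' : (Fin L → Fin m) → ℚ) (y : Fin m → ℕ) :
    Sm V (fun w => F w + F' w) y = Sm V F y + Sm V F' y := by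
  unfold Sm
  rw [← sum_add_distrib]
  apply sum_congr rfl
  intro w _
  split_ifs <;> simp

theorem Sm_mul (V : Set (Fin m → ℕ)) {L : ℕ} (c : ℚ) (F : (Fin L → Fin m) → ℚ)
    (y : Fin m → ℕ) : Sm V (fun w => c * F w) y = c * Sm V F y := by
  unfold Sm
  rw [mul_sum]
  apply sum_congr rfl
  intro w _
  split_ifs <;> simp

theorem Sm_congr (V : Set (Fin m → ℕ)) {L : ℕ} {F F' : (Fin L → Fin m) → ℚ} {y : Fin m → ℕ}
    (h : ∀ w, Cond V w y → F w = F' w) : Sm V F y = Sm V F' y := by
  unfold Sm
  apply sum_congr rfl
  intro w _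
  split_ifs with h1
  · exact h w h1
  · rfl

/-- The number of chains. -/
noncomputable def fc (V : Set (Fin m → ℕ)) (L : ℕ) (y : Fin m → ℕ) : ℚ :=
  Sm V (L := L) (fun _ => 1) y

/-- The sum of `φ` over all members of all chains. -/
noncomputable def Ac (V : Set (Fin m → ℕ)) (φ : (Fin m → ℕ) → ℚ) (L : ℕ) (y : Fin m → ℕ) : ℚ :=
  Sm V (L := L) (fun w => ∑ j ∈ range (L + 1), φ (Sh w j)) y

theorem fc_succ (V : Set (Fin m → ℕ)) (L : ℕ) {y : Fin m → ℕ} (hy : y ∈ V) :
    fc V (L + 1) y = ∑ i : Fin m, if 0 < y i then fc V L (dn i y) else 0 :=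
  Sm_succ V _ hy

theorem Ac_succ (V : Set (Fin m → ℕ)) (φ : (Fin m → ℕ) → ℚ) (L : ℕ) {y : Fin m → ℕ}
    (hy : y ∈ V) :
    Ac V φ (L + 1) y = (∑ i : Fin m, if 0 < y i then Ac V φ L (dn i y) else 0) +
      φ y * fc V (L + 1) y := by
  unfold Ac
  have h1 : ∀ F : (Fin (L + 1) → Fin m) → ℚ,
      Sm V (fun w => F w) y = Sm V (fun w => F w) y := fun _ => rfl
  have h2 : Sm V (fun w : Fin (L + 1) → Fin m => ∑ j ∈ range (L + 1 + 1), φ (Sh w j)) y =
      Sm V (fun w : Fin (L + 1) → Fin m => (∑ j ∈ range (L + 1), φ (Sh w j)) + φ y * 1) y := by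
    apply Sm_congr
    intro w hw
    rw [sum_range_succ _ (L + 1), hw.2, mul_one]
  rw [h2, Sm_add, Sm_mul]
  congr 1
  rw [Sm_succ V _ hy]
  apply sum_congr rfl
  intro i _
  split_ifs
  · apply Sm_congr
    intro w _
    apply sum_congr rfl
    intro j hj
    rw [Sh_snoc w i (by rw [mem_range] at hj; omega)]
  · rfl

theorem Sm_zero (V : Set (Fin m → ℕ)) (F : (Fin 0 → Fin m) → ℚ) {y : Fin m → ℕ} (hy : y ∈ V) :
    Sm V F y = if y = (fun _ => 0) then F Fin.elim0 else 0 := by
  unfold Sm
  rw [Fintype.sum_unique]
  have h1 : (default : Fin 0 → Fin m) = Fin.elim0 := by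
    funext i; exact i.elim0
  rw [h1]
  have h2 : Cond V (Fin.elim0 : Fin 0 → Fin m) y ↔ y = (fun _ => 0) := by
    unfold Cond
    rw [Sh_zero]
    constructor
    · exact fun h => h.2.symm
    · intro h
      refine ⟨fun j hj => ?_, h.symm⟩
      have : j = 0 := by omega
      rw [this, Sh_zero, ← h]
      exact hy
  simp only [h2]

theorem fc_zero (V : Set (Fin m → ℕ)) {y : Fin m → ℕ} (hy : y ∈ V) :
    fc V 0 y = if y = (fun _ => 0) then 1 else 0 := Sm_zero V _ hy

theorem Ac_zero (V : Set (Fin m → ℕ)) (φ : (Fin m → ℕ) → ℚ) {y : Fin m → ℕ} (hy : y ∈ V) :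
    Ac V φ 0 y = if y = (fun _ => 0) then φ y else 0 := by
  unfold Ac
  rw [Sm_zero V _ hy]
  split_ifs with h
  · simp only [zero_add, sum_range_one, Sh_zero]
    rw [h]
  · rfl

theorem fc_notMem (V : Set (Fin m → ℕ)) (L : ℕ) {y : Fin m → ℕ} (hy : y ∉ V) : fc V L y = 0 :=
  Sm_notMem V _ hy

theorem Ac_notMem (V : Set (Fin m → ℕ)) (φ : (Fin m → ℕ) → ℚ) (L : ℕ) {y : Fin m → ℕ}
    (hy : y ∉ V) : Ac V φ L y = 0 := Sm_notMem V _ hy

/-- The exchange property of the shapes inside the trapezoid. -/
theorem exch {n : ℕ} {y : Fin m → ℕ} {i j : Fin m} (hij : i ≠ j) (hy : y ∈ Vs n m)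
    (hj : 0 < y j) (hz : up i (dn j y) ∈ Vs n m) : up i y ∈ Vs n m ∧ dn j y ∈ Vs n m := by
  have hzi : up i (dn j y) i = y i + 1 := by
    unfold up dn
    rw [Function.update_self, Function.update_of_ne hij]
  have hzj : up i (dn j y) j = y j - 1 := by
    unfold up dn
    rw [Function.update_of_ne hij.symm, Function.update_self]
  have hz' : ∀ r, r ≠ i → r ≠ j → up i (dn j y) r = y r := by
    intro r h1 h2
    unfold up dn
    rw [Function.update_of_ne h1, Function.update_of_ne h2]
  refine ⟨⟨fun r => ?_, fun a b hab => ?_⟩, ⟨fun r => dn_bd hy.1 j r, fun a b hab => ?_⟩⟩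
  · by_cases hr : r = i
    · subst hr
      have := hz.1 r
      rw [hzi] at this
      unfold up
      rw [Function.update_self]
      exact this
    · unfold up
      rw [Function.update_of_ne hr]
      exact hy.1 r
  · have h1 := hz.2 a b hab
    have h2 := hy.2 a b hab
    unfold up
    by_cases hb : b = i
    · subst hb
      rw [Function.update_self, Function.update_of_ne hab.ne]
      rw [hzi] at h1
      by_cases ha : a = j
      · subst ha
        rw [hzj] at h1
        omega
      · rw [hz' a hab.ne ha] at h1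
        exact h1
    · rw [Function.update_of_ne hb]
      by_cases ha : a = i
      · subst ha
        rw [Function.update_self]
        omega
      · rw [Function.update_of_ne ha]
        exact h2
  · have h1 := hz.2 a b hab
    have h2 := hy.2 a b hab
    unfold dn
    by_cases hb : b = j
    · subst hb
      rw [Function.update_self, Function.update_of_ne hab.ne]
      omega
    · rw [Function.update_of_ne hb]
      by_cases ha : a = j
      · subst ha
        rw [Function.update_self]
        rw [hzj] at h1
        by_cases hb2 : b = i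
        · subst hb2
          rw [hzi] at h1
          omega
        · rw [hz' b hb2 hb] at h1
          exact h1
      · rw [Function.update_of_ne ha]
        exact h2

theorem up_dn_comm {i j : Fin m} (hij : i ≠ j) (y : Fin m → ℕ) :
    dn j (up i y) = up i (dn j y) := by
  unfold up dn
  rw [Function.update_of_ne hij.symm, Function.update_of_ne hij, Function.update_comm hij]

open Classical in
/-- **Toggle symmetry** for the maximal chains, in a recursive form. -/
theorem toggle_rec (n L : ℕ) : ∀ y ∈ Vs n m, Ac (Vs n m) (hatA n) L y =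
    ∑ i : Fin m, if up i y ∈ Vs n m then W n i (y i) * fc (Vs n m) (L + 1) (up i y) else 0 := by
  induction L with
  | zero =>
    intro y hy
    rw [Ac_zero _ _ hy]
    by_cases h0 : y = fun _ => 0
    · rw [if_pos h0]
      unfold hatA
      have h1 : ∑ i : Fin m, (if 0 < y i ∧ dn i y ∈ Vs n m then W n i (y i - 1) else 0) = 0 := by
        apply sum_eq_zero
        intro i _
        rw [if_neg]
        rintro ⟨h, _⟩
        rw [h0] at h
        exact lt_irrefl _ h
      rw [h1, sub_zero]
      apply sum_congr rfl
      intro i _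
      split_ifs with h2
      · rw [fc_succ _ _ h2]
        have h3 : ∑ j : Fin m, (if 0 < up i y j then fc (Vs n m) 0 (dn j (up i y)) else 0) = 1 := by
          rw [sum_eq_single i]
          · rw [if_pos (by simp [up]), dn_up, fc_zero _ hy, if_pos h0]
          · intro j _ hji
            rw [if_neg]
            unfold up
            rw [Function.update_of_ne hji, h0]
            exact lt_irrefl _
          · intro h; exact absurd (mem_univ i) h
        rw [h3, mul_one]
      · rfl
    · rw [if_neg h0]
      symm
      apply sum_eq_zero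
      intro i _
      split_ifs with h2
      · rw [fc_succ _ _ h2]
        have h3 : ∑ j : Fin m, (if 0 < up i y j then fc (Vs n m) 0 (dn j (up i y)) else 0) = 0 := by
          apply sum_eq_zero
          intro j _
          split_ifs with h4
          · by_cases h5 : dn j (up i y) ∈ Vs n m
            · rw [fc_zero _ h5, if_neg]
              intro h6
              by_cases hji : j = i
              · subst hji
                rw [dn_up] at h6
                exact h0 h6
              · have := congrFun h6 i
                unfold dn up at this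
                rw [Function.update_of_ne (Ne.symm hji), Function.update_self] at this
                simp at this
            · exact fc_notMem _ _ h5
          · rfl
        rw [h3, mul_zero]
      · rfl
  | succ L ih =>
    intro y hy
    rw [Ac_succ _ _ _ hy]
    -- the terms of the induction hypothesis
    have h1 : ∀ j : Fin m, (if 0 < y j then Ac (Vs n m) (hatA n) L (dn j y) else 0) =
        (∑ i ∈ univ.erase j, if 0 < y j ∧ up i (dn j y) ∈ Vs n m then
          W n i (y i) * fc (Vs n m) (L + 1) (up i (dn j y)) else 0) +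
        (if 0 < y j ∧ dn j y ∈ Vs n m then W n j (y j - 1) * fc (Vs n m) (L + 1) y else 0) := by
      intro j
      by_cases hj : 0 < y j
      · rw [if_pos hj]
        by_cases hd : dn j y ∈ Vs n m
        · rw [ih _ hd, ← sum_erase_add _ _ (mem_univ j)]
          congr 1
          · apply sum_congr rfl
            intro i hi
            have hij : i ≠ j := ne_of_mem_erase hi
            have h2 : dn j y i = y i := by unfold dn; rw [Function.update_of_ne hij]
            rw [h2]
            simp only [hj, true_and]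
          · rw [up_dn hj, if_pos hy, if_pos ⟨hj, hd⟩]
            have h2 : dn j y j = y j - 1 := by unfold dn; rw [Function.update_self]
            rw [h2]
        · rw [Ac_notMem _ _ _ hd, if_neg (fun h => hd h.2), add_zero]
          symm
          apply sum_eq_zero
          intro i hi
          rw [if_neg]
          rintro ⟨_, h2⟩
          exact hd (exch (ne_of_mem_erase hi) hy hj h2).2
      · rw [if_neg hj, if_neg (fun h => hj h.1), add_zero]
        symm
        apply sum_eq_zero
        intro i _
        rw [if_neg (fun h => hj h.1)]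
    rw [sum_congr rfl (fun j _ => h1 j), sum_add_distrib]
    have h2 : ∀ i : Fin m, (if up i y ∈ Vs n m then
        W n i (y i) * fc (Vs n m) (L + 1 + 1) (up i y) else 0) =
        (∑ j ∈ univ.erase i, if 0 < y j ∧ up i (dn j y) ∈ Vs n m then
          W n i (y i) * fc (Vs n m) (L + 1) (up i (dn j y)) else 0) +
        (if up i y ∈ Vs n m then W n i (y i) * fc (Vs n m) (L + 1) y else 0) := by
      intro i
      by_cases hu : up i y ∈ Vs n m
      · rw [if_pos hu, if_pos hu, fc_succ _ _ hu, ← sum_erase_add _ _ (mem_univ i),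
          if_pos (show 0 < up i y i by simp [up]), dn_up, mul_add, mul_sum]
        congr 1
        apply sum_congr rfl
        intro j hj
        have hij : i ≠ j := (ne_of_mem_erase hj).symm
        have h3 : up i y j = y j := by unfold up; rw [Function.update_of_ne hij.symm]
        rw [h3, up_dn_comm hij]
        by_cases h4 : 0 < y j
        · by_cases h5 : up i (dn j y) ∈ Vs n m
          · rw [if_pos h4, if_pos ⟨h4, h5⟩]
          · rw [if_pos h4, if_neg (fun h => h5 h.2), fc_notMem _ _ h5, mul_zero]
        · rw [if_neg h4, if_neg (fun h => h4 h.1), mul_zero]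
      · rw [if_neg hu, if_neg hu, add_zero]
        symm
        apply sum_eq_zero
        intro j hj
        rw [if_neg]
        rintro ⟨h3, h4⟩
        exact hu (exch (ne_of_mem_erase hj).symm hy h3 h4).1
    rw [sum_congr rfl (fun i _ => h2 i), sum_add_distrib]
    have h3 : ∑ j : Fin m, (∑ i ∈ univ.erase j, if 0 < y j ∧ up i (dn j y) ∈ Vs n m then
          W n i (y i) * fc (Vs n m) (L + 1) (up i (dn j y)) else 0) =
        ∑ i : Fin m, (∑ j ∈ univ.erase i, if 0 < y j ∧ up i (dn j y) ∈ Vs n m then
          W n i (y i) * fc (Vs n m) (L + 1) (up i (dn j y)) else 0) := by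
      apply sum_comm'
      intro a b
      simp only [mem_univ, mem_erase, and_true, true_and]
      exact ne_comm
    rw [h3, add_assoc]
    congr 1
    unfold hatA
    rw [sub_mul, sum_mul, sum_mul]
    have h4 : ∀ (p : Prop) [Decidable p] (a c : ℚ), (if p then a else 0) * c =
        if p then a * c else 0 := by
      intro p _ a c
      split_ifs <;> simp
    simp only [h4]
    ring

/-- The sum over all members of all maximal chains. -/
theorem toggle_top {n : ℕ} (L : ℕ) {y : Fin m → ℕ} (hy : y ∈ Vs n m)
    (htop : ∀ i, up i y ∉ Vs n m) : Ac (Vs n m) (hatA n) L y = 0 := by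
  rw [toggle_rec n L y hy]
  apply sum_eq_zero
  intro i _
  rw [if_neg (htop i)]

/-- The number of chains is given by the product formula. -/
theorem fc_eq (n L : ℕ) : ∀ y ∈ Vs n m, fc (Vs n m) L y = if ∑ i, y i = L then G y else 0 := by
  induction L with
  | zero =>
    intro y hy
    rw [fc_zero _ hy]
    by_cases h0 : y = fun _ => 0
    · rw [if_pos h0, if_pos (by rw [h0]; simp)]
      rw [h0]
      unfold G P q
      simp
    · rw [if_neg h0, if_neg]
      intro h1
      apply h0
      funext i
      exact (sum_eq_zero_iff.1 h1) i (mem_univ i)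
  | succ L ih =>
    intro y hy
    rw [fc_succ _ _ hy]
    by_cases hs : ∑ i, y i = L + 1
    · rw [if_pos hs, G_rec hy.2 (by omega)]
      apply sum_congr rfl
      intro i _
      by_cases hi : 0 < y i
      · rw [if_pos hi, if_pos hi]
        by_cases hd : dn i y ∈ Vs n m
        · rw [ih _ hd, if_pos]
          have := sum_dn hi
          omega
        · rw [fc_notMem _ _ hd, G_dn_eq_zero hy.2 hi]
          exact fun h => hd ⟨dn_bd hy.1 i, h⟩
      · rw [if_neg hi, if_neg hi]
    · rw [if_neg hs]
      apply sum_eq_zero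
      intro i _
      by_cases hi : 0 < y i
      · rw [if_pos hi]
        by_cases hd : dn i y ∈ Vs n m
        · rw [ih _ hd, if_neg]
          have := sum_dn hi
          omega
        · exact fc_notMem _ _ hd
      · rw [if_neg hi]

end Pool.Agent.N363.CDE
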