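import Pool.Agent.N363.CDE.Prod

/-!
# Counting the shapes inside a trapezoid
-/

set_option autoImplicit false

namespace Pool.Agent.N363.CDE

open Finset

/-- The shapes inside the trapezoid. -/
def Vs (n m : ℕ) : Set (Fin m → ℕ) := {y | (∀ i : Fin m, y i ≤ n - 2 * (i : ℕ)) ∧ Str y}

/-- Strictly decreasing sequences with bounds. -/
def Ss (n m : ℕ) : Set (Fin m → ℕ) :=
  {z | (∀ i : Fin m, z i + 2 * (i : ℕ) < n) ∧ ∀ i j : Fin m, i < j → z j < z i}

theorem Vs_finite (n m : ℕ) : (Vs n m).Finite := by
  apply Set.Finite.subset (Set.finite_Icc (0 : Fin m → ℕ) (fun _ => n))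
  intro y hy
  exact ⟨fun i => Nat.zero_le _, fun i => (hy.1 i).trans (Nat.sub_le _ _)⟩

theorem Ss_finite (n m : ℕ) : (Ss n m).Finite := by
  apply Set.Finite.subset (Set.finite_Icc (0 : Fin m → ℕ) (fun _ => n))
  intro y hy
  refine ⟨fun i => Nat.zero_le _, fun i => ?_⟩
  have := hy.1 i
  show y i ≤ n
  omega

theorem add_inj (m c : ℕ) : Function.Injective (fun (z : Fin m → ℕ) i => z i + c) := by
  intro z z' h
  funext i
  have := congrFun h i
  simp only at this
  omega

theorem snoc_inj (m : ℕ) (c : ℕ) :
    Function.Injective (fun (z : Fin m → ℕ) => (Fin.snoc z c : Fin (m + 1) → ℕ)) := by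
  intro z z' h
  funext i
  have := congrFun h i.castSucc
  simpa using this

theorem Vs_split (n m : ℕ) : Vs n (m + 1) =
    (fun (z : Fin m → ℕ) => (Fin.snoc z 0 : Fin (m + 1) → ℕ)) '' Vs n m ∪
      (fun (z : Fin (m + 1) → ℕ) i => z i + 1) '' Ss n (m + 1) := by
  ext y
  constructor
  · rintro ⟨h1, h2⟩
    by_cases h0 : y (Fin.last m) = 0
    · left
      refine ⟨Fin.init y, ⟨fun i => ?_, fun i j hij => ?_⟩, ?_⟩
      · have := h1 i.castSucc
        simpa [Fin.init] using this
      · exact h2 i.castSucc j.castSucc (by simpa using hij)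
      · show Fin.snoc (Fin.init y) 0 = y
        rw [← h0, Fin.snoc_init_self]
    · right
      have hpos : ∀ i, 0 < y i := by
        intro i
        rcases eq_or_ne i (Fin.last m) with h | h
        · rw [h]; omega
        · rcases h2 i (Fin.last m) (Fin.lt_last_iff_ne_last.2 h) with h3 | h3 <;> omega
      refine ⟨fun i => y i - 1, ⟨fun i => ?_, fun i j hij => ?_⟩, ?_⟩
      · have := h1 i
        have := hpos i
        simp only
        omega
      · have := hpos i
        have := hpos j
        simp only
        rcases h2 i j hij with h3 | h3 <;> omega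
      · funext i
        have := hpos i
        simp only
        omega
  · rintro (⟨z, ⟨h1, h2⟩, rfl⟩ | ⟨z, ⟨h1, h2⟩, rfl⟩)
    · refine ⟨fun i => ?_, fun i j hij => ?_⟩
      · refine Fin.lastCases ?_ (fun i => ?_) i
        · simp
        · simpa using h1 i
      · rcases eq_or_ne j (Fin.last m) with h | h
        · left; rw [h]; simp
        · have hi : i ≠ Fin.last m := by
            rintro rfl
            exact absurd (Fin.le_last j) (not_le.2 hij)
          obtain ⟨i', rfl⟩ := Fin.exists_castSucc_eq.2 hi
          obtain ⟨j', rfl⟩ := Fin.exists_castSucc_eq.2 h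
          simpa using h2 i' j' (by simpa using hij)
    · refine ⟨fun i => ?_, fun i j hij => ?_⟩
      · have := h1 i
        simp only
        omega
      · right
        have := h2 i j hij
        simp only
        omega

theorem Vs_card (n m : ℕ) :
    (Vs n (m + 1)).ncard = (Vs n m).ncard + (Ss n (m + 1)).ncard := by
  have hd : Disjoint ((fun (z : Fin m → ℕ) => (Fin.snoc z 0 : Fin (m + 1) → ℕ)) '' Vs n m)
      ((fun (z : Fin (m + 1) → ℕ) i => z i + 1) '' Ss n (m + 1)) := by
    rw [Set.disjoint_left]
    rintro _ ⟨z, _, rfl⟩ ⟨z', _, h⟩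
    have := congrFun h (Fin.last m)
    simp at this
  rw [Vs_split, Set.ncard_union_eq hd ((Vs_finite n m).image _) ((Ss_finite n (m + 1)).image _),
    Set.ncard_image_of_injective _ (snoc_inj m 0),
    Set.ncard_image_of_injective _ (add_inj (m + 1) 1)]

theorem Ss_split (n m : ℕ) (hn : 2 * m ≤ n) : Ss (n + 1) (m + 1) =
    (fun (z : Fin (m + 1) → ℕ) i => z i + 1) '' Ss n (m + 1) ∪
      (fun (z : Fin m → ℕ) => (Fin.snoc (fun i => z i + 1) 0 : Fin (m + 1) → ℕ)) '' Ss n m := by
  ext y
  constructor
  · rintro ⟨h1, h2⟩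
    by_cases h0 : y (Fin.last m) = 0
    · right
      have hpos : ∀ i : Fin m, 0 < y i.castSucc := fun i => by
        have := h2 i.castSucc (Fin.last m) (Fin.castSucc_lt_last i)
        omega
      refine ⟨fun i => y i.castSucc - 1, ⟨fun i => ?_, fun i j hij => ?_⟩, ?_⟩
      · have := h1 i.castSucc
        have := hpos i
        simp only [Fin.val_castSucc] at *
        omega
      · have := hpos i
        have := hpos j
        have := h2 i.castSucc j.castSucc (by simpa using hij)
        simp only
        omega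
      · funext i
        refine Fin.lastCases ?_ (fun i => ?_) i
        · simp [h0]
        · have := hpos i
          simp only [Fin.snoc_castSucc]
          omega
    · left
      have hpos : ∀ i, 0 < y i := by
        intro i
        rcases eq_or_ne i (Fin.last m) with h | h
        · rw [h]; omega
        · have := h2 i (Fin.last m) (Fin.lt_last_iff_ne_last.2 h)
          omega
      refine ⟨fun i => y i - 1, ⟨fun i => ?_, fun i j hij => ?_⟩, ?_⟩
      · have := h1 i
        have := hpos i
        simp only
        omega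
      · have := hpos i
        have := hpos j
        have := h2 i j hij
        simp only
        omega
      · funext i
        have := hpos i
        simp only
        omega
  · rintro (⟨z, ⟨h1, h2⟩, rfl⟩ | ⟨z, ⟨h1, h2⟩, rfl⟩)
    · refine ⟨fun i => ?_, fun i j hij => ?_⟩
      · have := h1 i
        simp only
        omega
      · have := h2 i j hij
        simp only
        omega
    · refine ⟨fun i => ?_, fun i j hij => ?_⟩
      · refine Fin.lastCases ?_ (fun i => ?_) i
        · simp; omega
        · have := h1 i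
          simp only [Fin.snoc_castSucc, Fin.val_castSucc]
          omega
      · have hi : i ≠ Fin.last m := by
          rintro rfl
          exact absurd (Fin.le_last j) (not_le.2 hij)
        obtain ⟨i', rfl⟩ := Fin.exists_castSucc_eq.2 hi
        rcases eq_or_ne j (Fin.last m) with h | h
        · rw [h]; simp
        · obtain ⟨j', rfl⟩ := Fin.exists_castSucc_eq.2 h
          have := h2 i' j' (by simpa using hij)
          simp only [Fin.snoc_castSucc]
          omega

theorem Ss_card (n m : ℕ) (hn : 2 * m ≤ n) :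
    (Ss (n + 1) (m + 1)).ncard = (Ss n (m + 1)).ncard + (Ss n m).ncard := by
  have hinj : Function.Injective
      (fun (z : Fin m → ℕ) => (Fin.snoc (fun i => z i + 1) 0 : Fin (m + 1) → ℕ)) := by
    intro z z' h
    exact add_inj m 1 (snoc_inj m 0 h)
  have hd : Disjoint ((fun (z : Fin (m + 1) → ℕ) i => z i + 1) '' Ss n (m + 1))
      ((fun (z : Fin m → ℕ) => (Fin.snoc (fun i => z i + 1) 0 : Fin (m + 1) → ℕ)) '' Ss n m) := by
    rw [Set.disjoint_left]
    rintro _ ⟨z, _, rfl⟩ ⟨z', _, h⟩
    have := congrFun h (Fin.last m)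
    simp at this
  rw [Ss_split n m hn,
    Set.ncard_union_eq hd ((Ss_finite n (m + 1)).image _) ((Ss_finite n m).image _),
    Set.ncard_image_of_injective _ hinj, Set.ncard_image_of_injective _ (add_inj (m + 1) 1)]

theorem Ss_zero (n : ℕ) : (Ss n 0).ncard = 1 := by
  rw [Set.ncard_eq_one]
  refine ⟨Fin.elim0, ?_⟩
  ext z
  simp only [Set.mem_singleton_iff]
  constructor
  · intro _; funext i; exact i.elim0
  · intro _; exact ⟨fun i => i.elim0, fun i => i.elim0⟩

theorem Vs_zero (n : ℕ) : (Vs n 0).ncard = 1 := by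
  rw [Set.ncard_eq_one]
  refine ⟨Fin.elim0, ?_⟩
  ext z
  simp only [Set.mem_singleton_iff]
  constructor
  · intro _; funext i; exact i.elim0
  · intro _; exact ⟨fun i => i.elim0, fun i => i.elim0⟩

theorem Ss_formula (m : ℕ) : ∀ n, 2 * m ≤ n →
    (Ss n (m + 1)).ncard + (n + 1).choose m = (n + 1).choose (m + 1) := by
  induction m with
  | zero =>
    intro n hn
    induction n with
    | zero =>
      have : Ss 0 (0 + 1) = ∅ := by
        rw [Set.eq_empty_iff_forall_notMem]
        rintro z ⟨h1, _⟩
        have := h1 0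
        omega
      rw [this]
      simp
    | succ n ih =>
      rw [Ss_card n 0 (by omega), Ss_zero]
      have := ih (by omega)
      simp at this ⊢
      omega
  | succ m ihm =>
    intro n hn
    induction n, hn using Nat.le_induction with
    | base =>
      have : Ss (2 * (m + 1)) (m + 1 + 1) = ∅ := by
        rw [Set.eq_empty_iff_forall_notMem]
        rintro z ⟨h1, _⟩
        have := h1 (Fin.last (m + 1))
        simp at this
      rw [this, Set.ncard_empty, zero_add]
      rw [← Nat.choose_symm_of_eq_add]
      omega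
    | succ n hn ih =>
      rw [Ss_card n (m + 1) hn]
      have h1 := ihm n (by omega)
      have e1 : (n + 1 + 1).choose (m + 1 + 1) =
        (n + 1).choose (m + 1) + (n + 1).choose (m + 1 + 1) := Nat.choose_succ_succ _ _
      have e2 : (n + 1 + 1).choose (m + 1) =
        (n + 1).choose m + (n + 1).choose (m + 1) := Nat.choose_succ_succ _ _
      omega

theorem Vs_formula (m : ℕ) : ∀ n, 2 * m ≤ n + 2 → (Vs n m).ncard = (n + 1).choose m := by
  induction m with
  | zero => intro n _; rw [Vs_zero]; simp
  | succ m ih =>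
    intro n hn
    rw [Vs_card, ih n (by omega), add_comm]
    exact Ss_formula m n (by omega)

/-- The shapes inside the trapezoid whose last row has at least two boxes. -/
theorem Vs_two (n m : ℕ) : {y | y ∈ Vs (n + 1) (m + 1) ∧ 2 ≤ y (Fin.last m)} =
    (fun (z : Fin (m + 1) → ℕ) i => z i + 2) '' Ss n (m + 1) := by
  ext y
  constructor
  · rintro ⟨⟨h1, h2⟩, h3⟩
    have hpos : ∀ i, 2 ≤ y i := by
      intro i
      rcases eq_or_ne i (Fin.last m) with h | h
      · rw [h]; omega
      · rcases h2 i (Fin.last m) (Fin.lt_last_iff_ne_last.2 h) with h4 | h4 <;> omega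
    refine ⟨fun i => y i - 2, ⟨fun i => ?_, fun i j hij => ?_⟩, ?_⟩
    · have := h1 i
      have := hpos i
      simp only
      omega
    · have := hpos i
      have := hpos j
      simp only
      rcases h2 i j hij with h4 | h4 <;> omega
    · funext i
      have := hpos i
      simp only
      omega
  · rintro ⟨z, ⟨h1, h2⟩, rfl⟩
    refine ⟨⟨fun i => ?_, fun i j hij => ?_⟩, ?_⟩
    · have := h1 i
      simp only
      omega
    · right
      have := h2 i j hij
      simp only
      omega
    · simp

theorem Vs_two_card (n m : ℕ) :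
    {y | y ∈ Vs (n + 1) (m + 1) ∧ 2 ≤ y (Fin.last m)}.ncard = (Ss n (m + 1)).ncard := by
  rw [Vs_two, Set.ncard_image_of_injective _ (add_inj (m + 1) 2)]

/-- The probability that the last row has at least two boxes. -/
theorem two_prob (n k : ℕ) (hk : 2 * k < n) :
    ((n : ℚ) + 1) * ({y | y ∈ Vs n (k + 1) ∧ 2 ≤ y (Fin.last k)}.ncard : ℚ) =
      ((n : ℚ) - 2 * k - 1) * ((Vs n (k + 1)).ncard : ℚ) := by
  obtain ⟨n, rfl⟩ : ∃ n', n = n' + 1 := ⟨n - 1, by omega⟩
  rw [Vs_two_card, Vs_formula (k + 1) (n + 1) (by omega)]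
  have h1 := Ss_formula k n (by omega)
  have h2 : (n + 1 + 1).choose (k + 1) = (n + 1).choose k + (n + 1).choose (k + 1) :=
    Nat.choose_succ_succ _ _
  have h3 : (n + 1 + 1) * (n + 1).choose k = (n + 1 + 1).choose (k + 1) * (k + 1) :=
    Nat.add_one_mul_choose_eq _ _
  have h1' : ((Ss n (k + 1)).ncard : ℚ) + ((n + 1).choose k : ℚ) = ((n + 1).choose (k + 1) : ℚ) := by
    exact_mod_cast h1
  have h2' : ((n + 1 + 1).choose (k + 1) : ℚ) =
    ((n + 1).choose k : ℚ) + ((n + 1).choose (k + 1) : ℚ) := by exact_mod_cast h2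
  have h3' : ((n : ℚ) + 1 + 1) * ((n + 1).choose k : ℚ) =
      ((n + 1 + 1).choose (k + 1) : ℚ) * ((k : ℚ) + 1) := by exact_mod_cast h3
  push_cast
  linear_combination ((n : ℚ) + 1 + 1) * h1' - ((n : ℚ) + 1 + 1) * h2' - 2 * h3'

end Pool.Agent.N363.CDE
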