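import Pool.Agent.N363.CDE.Chain

/-!
# The two averages
-/

set_option autoImplicit false

namespace Pool.Agent.N363.CDE

open Finset

variable {m : ℕ}

theorem P_snoc (y : Fin m → ℕ) (c : ℕ) :
    P (Fin.snoc y c : Fin (m + 1) → ℕ) = P y * ∏ i, q (y i) c := by
  unfold P
  rw [Fin.prod_univ_castSucc]
  have h1 : ∏ r : Fin (m + 1), (if Fin.last m < r then
      q ((Fin.snoc y c : Fin (m + 1) → ℕ) (Fin.last m)) ((Fin.snoc y c : Fin (m + 1) → ℕ) r)
        else 1) = 1 := by
    apply prod_eq_one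
    intro r _
    rw [if_neg (not_lt.2 (Fin.le_last r))]
  rw [h1, mul_one, ← prod_mul_distrib]
  apply prod_congr rfl
  intro p _
  rw [Fin.prod_univ_castSucc]
  simp [Fin.castSucc_lt_last]

theorem G_snoc_zero (y : Fin m → ℕ) : G (Fin.snoc y 0 : Fin (m + 1) → ℕ) = G y := by
  unfold G
  rw [P_snoc, Fin.sum_univ_castSucc, Fin.prod_univ_castSucc]
  simp [q]

theorem G_snoc_one (y : Fin m → ℕ) : G (Fin.snoc y 1 : Fin (m + 1) → ℕ) =
    ((∑ i, y i : ℕ) + 1 : ℚ) * G y * ∏ i, (((y i : ℚ) - 1) / ((y i : ℚ) + 1)) := by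
  unfold G
  rw [P_snoc, Fin.sum_univ_castSucc, Fin.prod_univ_castSucc]
  simp only [Fin.snoc_castSucc, Fin.snoc_last, Nat.factorial_one, Nat.cast_one, mul_one]
  rw [Nat.factorial_succ]
  have h1 : ∏ i, q (y i) 1 = ∏ i, (((y i : ℚ) - 1) / ((y i : ℚ) + 1)) := by
    apply prod_congr rfl
    intro i _
    simp [q]
  rw [h1]
  push_cast
  ring

theorem dn_snoc_castSucc (y : Fin m → ℕ) (c : ℕ) (i : Fin m) :
    dn i.castSucc (Fin.snoc y c : Fin (m + 1) → ℕ) = Fin.snoc (dn i y) c := by
  unfold dn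
  rw [Fin.snoc_castSucc]
  funext r
  refine Fin.lastCases ?_ (fun r => ?_) r
  · rw [Function.update_of_ne (Fin.castSucc_lt_last i).ne', Fin.snoc_last, Fin.snoc_last]
  · rw [Fin.snoc_castSucc]
    by_cases hr : r = i
    · subst hr
      rw [Function.update_self, Function.update_self]
    · rw [Function.update_of_ne hr, Function.update_of_ne, Fin.snoc_castSucc]
      intro h
      exact hr (Fin.castSucc_injective _ h)

theorem dn_snoc_last (y : Fin m → ℕ) (c : ℕ) :
    dn (Fin.last m) (Fin.snoc y c : Fin (m + 1) → ℕ) = Fin.snoc y (c - 1) := by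
  unfold dn
  rw [Fin.snoc_last]
  funext r
  refine Fin.lastCases ?_ (fun r => ?_) r
  · rw [Function.update_self, Fin.snoc_last]
  · rw [Function.update_of_ne (Fin.castSucc_lt_last r).ne, Fin.snoc_castSucc, Fin.snoc_castSucc]

/-- The recursion with an additional row of length one. -/
theorem H_rec {k : ℕ} {y : Fin (k + 1) → ℕ} (h : Str y) (h2 : 2 ≤ y (Fin.last k)) :
    G (Fin.snoc y 1 : Fin (k + 1 + 1) → ℕ) =
      (∑ i, if 0 < y i then G (Fin.snoc (dn i y) 1 : Fin (k + 1 + 1) → ℕ) else 0) + G y := by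
  have hall : ∀ i, 2 ≤ y i := by
    intro i
    rcases eq_or_ne i (Fin.last k) with h1 | h1
    · rw [h1]; exact h2
    · rcases h i (Fin.last k) (Fin.lt_last_iff_ne_last.2 h1) with h4 | h4 <;> omega
  have hs : Str (Fin.snoc y 1 : Fin (k + 1 + 1) → ℕ) := by
    intro i j hij
    have hi : i ≠ Fin.last (k + 1) := by
      rintro rfl
      exact absurd (Fin.le_last j) (not_le.2 hij)
    obtain ⟨i', rfl⟩ := Fin.exists_castSucc_eq.2 hi
    rcases eq_or_ne j (Fin.last (k + 1)) with h1 | h1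
    · right
      rw [h1, Fin.snoc_last, Fin.snoc_castSucc]
      exact hall i'
    · obtain ⟨j', rfl⟩ := Fin.exists_castSucc_eq.2 h1
      rw [Fin.snoc_castSucc, Fin.snoc_castSucc]
      exact h i' j' (by simpa using hij)
  rw [G_rec hs]
  · rw [Fin.sum_univ_castSucc, Fin.snoc_last, dn_snoc_last, if_pos (by norm_num), Nat.sub_self,
      G_snoc_zero]
    congr 1
    apply sum_congr rfl
    intro i _
    rw [Fin.snoc_castSucc, dn_snoc_castSucc]
  · rw [Fin.sum_univ_castSucc, Fin.snoc_last]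
    omega

/-- The indicator function of the shapes whose last row has at least two boxes. -/
noncomputable def del {k : ℕ} (y : Fin (k + 1) → ℕ) : ℚ := if 2 ≤ y (Fin.last k) then 1 else 0

theorem dn_last {k : ℕ} (y : Fin (k + 1) → ℕ) (i : Fin (k + 1)) :
    dn i y (Fin.last k) = if i = Fin.last k then y (Fin.last k) - 1 else y (Fin.last k) := by
  unfold dn
  by_cases h : i = Fin.last k
  · subst h; simp
  · rw [Function.update_of_ne (Ne.symm h), if_neg h]

theorem del_eq {n k : ℕ} (L : ℕ) : ∀ y ∈ Vs n (k + 1), Ac (Vs n (k + 1)) del L y =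
    if ∑ i, y i = L ∧ 0 < y (Fin.last k) then G (Fin.snoc y 1 : Fin (k + 1 + 1) → ℕ) else 0 := by
  induction L with
  | zero =>
    intro y hy
    have h0 : ¬ (∑ i, y i = 0 ∧ 0 < y (Fin.last k)) := by
      rintro ⟨h1, h2⟩
      have := (sum_eq_zero_iff.1 h1) (Fin.last k) (mem_univ _)
      omega
    rw [Ac_zero _ _ hy, if_neg h0]
    split_ifs with h
    · rw [h]; simp [del]
    · rfl
  | succ L ih =>
    intro y hy
    rw [Ac_succ _ _ _ hy, fc_eq _ _ _ hy]
    by_cases hs : ∑ i, y i = L + 1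
    · rw [if_pos hs]
      simp only [hs, true_and]
      rcases Nat.lt_or_ge (y (Fin.last k)) 2 with h2 | h2
      · -- all terms vanish
        have hd : del y = 0 := by unfold del; rw [if_neg (by omega)]
        rw [hd, zero_mul, add_zero]
        have hR : (if 0 < y (Fin.last k) then G (Fin.snoc y 1 : Fin (k + 1 + 1) → ℕ) else 0) = 0 := by
          split_ifs with h3
          · have h4 : y (Fin.last k) = 1 := by omega
            rw [G_snoc_one, prod_eq_zero (mem_univ (Fin.last k)), mul_zero]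
            rw [h4]; simp
          · rfl
        rw [hR]
        apply sum_eq_zero
        intro i _
        split_ifs with hi
        · by_cases hdn : dn i y ∈ Vs n (k + 1)
          · rw [ih _ hdn]
            split_ifs with h3
            · rw [dn_last] at h3
              have h4 : i ≠ Fin.last k ∧ y (Fin.last k) = 1 := by
                by_cases h5 : i = Fin.last k
                · rw [if_pos h5] at h3; omega
                · rw [if_neg h5] at h3; exact ⟨h5, by omega⟩
              rw [G_snoc_one, prod_eq_zero (mem_univ (Fin.last k)), mul_zero]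
              rw [dn_last, if_neg h4.1, h4.2]; simp
            · rfl
          · exact Ac_notMem _ _ _ hdn
        · rfl
      · have hd : del y = 1 := by unfold del; rw [if_pos h2]
        rw [hd, one_mul, if_pos (by omega : 0 < y (Fin.last k)), H_rec hy.2 h2]
        congr 1
        apply sum_congr rfl
        intro i _
        by_cases hi : 0 < y i
        · rw [if_pos hi, if_pos hi]
          by_cases hdn : dn i y ∈ Vs n (k + 1)
          · rw [ih _ hdn, if_pos]
            refine ⟨?_, ?_⟩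
            · have := sum_dn hi
              omega
            · rw [dn_last]
              split_ifs <;> omega
          · rw [Ac_notMem _ _ _ hdn, G_snoc_one,
              G_dn_eq_zero hy.2 hi (fun h => hdn ⟨dn_bd hy.1 i, h⟩)]
            ring
        · rw [if_neg hi, if_neg hi]
    · rw [if_neg hs, mul_zero, add_zero, if_neg (fun h => hs h.1)]
      apply sum_eq_zero
      intro i _
      split_ifs with hi
      · by_cases hdn : dn i y ∈ Vs n (k + 1)
        · rw [ih _ hdn, if_neg]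
          rintro ⟨h3, _⟩
          have := sum_dn hi
          omega
        · exact Ac_notMem _ _ _ hdn
      · rfl

/-- The full trapezoid. -/
def top (n k : ℕ) : Fin (k + 1) → ℕ := fun i => n - 2 * (i : ℕ)

theorem top_mem {n k : ℕ} (hk : 2 * k < n) : top n k ∈ Vs n (k + 1) := by
  refine ⟨fun i => le_rfl, fun i j hij => ?_⟩
  right
  unfold top
  rw [Fin.lt_def] at hij
  have := i.isLt
  have := j.isLt
  omega

theorem up_top {n k : ℕ} (i : Fin (k + 1)) : up i (top n k) ∉ Vs n (k + 1) := by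
  rintro ⟨h, _⟩
  have := h i
  unfold up top at this
  rw [Function.update_self] at this
  omega

theorem top_sum {n k : ℕ} (hk : 2 * k < n) :
    ((∑ i, top n k i : ℕ) : ℚ) = ((k : ℚ) + 1) * ((n : ℚ) - k) := by
  unfold top
  rw [Fin.sum_univ_eq_sum_range (fun i => n - 2 * i) (k + 1)]
  have h : ∀ j, 2 * j < n + 2 → ((∑ i ∈ range j, (n - 2 * i) : ℕ) : ℚ) =
      (j : ℚ) * ((n : ℚ) - j + 1) := by
    intro j
    induction j with
    | zero => intro _; simp
    | succ j ih =>
      intro hj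
      rw [sum_range_succ, Nat.cast_add, ih (by omega), Nat.cast_sub (by omega)]
      push_cast
      ring
  rw [h (k + 1) (by omega)]
  push_cast
  ring

theorem top_prod {n k : ℕ} (hk : 2 * k < n) :
    ∏ i, (((top n k i : ℚ) - 1) / ((top n k i : ℚ) + 1)) =
      ((n : ℚ) - 2 * k - 1) / ((n : ℚ) + 1) := by
  unfold top
  rw [Fin.prod_univ_eq_prod_range (fun i => ((((n - 2 * i : ℕ) : ℚ) - 1) /
    (((n - 2 * i : ℕ) : ℚ) + 1))) (k + 1)]
  have h : ∀ j, 2 * j < n + 2 → ∏ i ∈ range j, ((((n - 2 * i : ℕ) : ℚ) - 1) /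
      (((n - 2 * i : ℕ) : ℚ) + 1)) = ((n : ℚ) - 2 * j + 1) / ((n : ℚ) + 1) := by
    intro j
    induction j with
    | zero =>
      intro _
      have : (n : ℚ) + 1 ≠ 0 := by positivity
      simp [div_self this]
    | succ j ih =>
      intro hj
      rw [prod_range_succ, ih (by omega), Nat.cast_sub (by omega)]
      have h1 : (2 * (j : ℚ)) ≤ n := by
        have : 2 * j ≤ n := by omega
        exact_mod_cast this
      have h2 : (n : ℚ) - 2 * j + 1 ≠ 0 := by linarith
      have h3 : (n : ℚ) + 1 ≠ 0 := by positivity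
      push_cast
      field_simp
      ring
  rw [h (k + 1) (by omega)]
  push_cast
  congr 1
  ring

theorem G_top_ne {n k : ℕ} (hk : 2 * k < n) : G (top n k) ≠ 0 := by
  unfold G P
  apply mul_ne_zero
  · apply div_ne_zero
    · exact_mod_cast Nat.factorial_ne_zero _
    · rw [prod_ne_zero_iff]
      intro i _
      exact_mod_cast Nat.factorial_ne_zero _
  · rw [prod_ne_zero_iff]
    intro p _
    rw [prod_ne_zero_iff]
    intro r _
    split_ifs with h
    · unfold q top
      have := p.isLt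
      have := r.isLt
      rw [Fin.lt_def] at h
      rw [if_neg (by omega)]
      have h1 : n - 2 * (r : ℕ) < n - 2 * (p : ℕ) := by omega
      have h2 : ((n - 2 * (r : ℕ) : ℕ) : ℚ) < ((n - 2 * (p : ℕ) : ℕ) : ℚ) := by exact_mod_cast h1
      have h3 : (0 : ℚ) ≤ ((n - 2 * (r : ℕ) : ℕ) : ℚ) := Nat.cast_nonneg _
      apply div_ne_zero
      · exact ne_of_gt (by linarith)
      · exact ne_of_gt (by linarith)
    · norm_num

theorem Ac_add (V : Set (Fin m → ℕ)) (φ ψ : (Fin m → ℕ) → ℚ) (L : ℕ) (y : Fin m → ℕ) :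
    Ac V (fun z => φ z + ψ z) L y = Ac V φ L y + Ac V ψ L y := by
  unfold Ac
  rw [← Sm_add]
  apply Sm_congr
  intro w _
  rw [sum_add_distrib]

theorem Ac_mul (V : Set (Fin m → ℕ)) (c : ℚ) (φ : (Fin m → ℕ) → ℚ) (L : ℕ) (y : Fin m → ℕ) :
    Ac V (fun z => c * φ z) L y = c * Ac V φ L y := by
  unfold Ac
  rw [← Sm_mul]
  apply Sm_congr
  intro w _
  rw [mul_sum]

theorem Ac_const (V : Set (Fin m → ℕ)) (c : ℚ) (L : ℕ) (y : Fin m → ℕ) :
    Ac V (fun _ => c) L y = c * ((L : ℚ) + 1) * fc V L y := by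
  unfold Ac fc
  rw [← Sm_mul]
  apply Sm_congr
  intro w _
  rw [sum_const, card_range, nsmul_eq_mul]
  push_cast
  ring

theorem Ac_congr (V : Set (Fin m → ℕ)) {φ ψ : (Fin m → ℕ) → ℚ} (L : ℕ) (y : Fin m → ℕ)
    (h : ∀ z ∈ V, φ z = ψ z) : Ac V φ L y = Ac V ψ L y := by
  unfold Ac
  apply Sm_congr
  intro w hw
  apply sum_congr rfl
  intro j hj
  exact h _ (hw.1 j (by rw [mem_range] at hj; omega))

/-- The average of the down-degree over the maximal chains. -/
theorem chain_avg {n k : ℕ} (hk : 2 * k < n) (N : ℕ) (hN : N = ∑ i, top n k i) :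
    Ac (Vs n (k + 1)) (fun y => (ddeg n y : ℚ)) N (top n k) /
      (fc (Vs n (k + 1)) N (top n k) * ((N : ℚ) + 1)) = (N : ℚ) / ((n : ℚ) + 1) := by
  have hmem := top_mem hk
  have h1 := toggle_top (n := n) N hmem up_top
  have h2 : Ac (Vs n (k + 1)) (hatA n) N (top n k) =
      4 * Ac (Vs n (k + 1)) (fun y => (ddeg n y : ℚ)) N (top n k) -
        ((n : ℚ) + 1) * ((N : ℚ) + 1) * fc (Vs n (k + 1)) N (top n k) +
        ((n : ℚ) - 2 * k - 1) * Ac (Vs n (k + 1)) del N (top n k) := by
    rw [← Ac_mul, ← Ac_mul, ← Ac_const, sub_eq_add_neg, neg_eq_neg_one_mul, ← Ac_mul, ← Ac_add,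
      ← Ac_add]
    apply Ac_congr
    intro z hz
    rw [local_id hk hz]
    unfold del
    ring
  have hlast : 0 < top n k (Fin.last k) := by unfold top; simp; omega
  have hf : fc (Vs n (k + 1)) N (top n k) = G (top n k) := by
    rw [fc_eq _ _ _ hmem, if_pos hN.symm]
  have hNq : (N : ℚ) = ((k : ℚ) + 1) * ((n : ℚ) - k) := by rw [hN, top_sum hk]
  have hd : Ac (Vs n (k + 1)) del N (top n k) =
      ((N : ℚ) + 1) * G (top n k) * (((n : ℚ) - 2 * k - 1) / ((n : ℚ) + 1)) := by
    rw [del_eq _ _ hmem, if_pos ⟨hN.symm, hlast⟩, G_snoc_one, top_prod hk, ← hN]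
  rw [h1, hf, hd] at h2
  rw [hf]
  have hG := G_top_ne hk
  have hn1 : (n : ℚ) + 1 ≠ 0 := by positivity
  have hN1 : (N : ℚ) + 1 ≠ 0 := by positivity
  rw [div_eq_div_iff (mul_ne_zero hG hN1) hn1]
  have h3 : 4 * (((n : ℚ) + 1) * Ac (Vs n (k + 1)) (fun y => (ddeg n y : ℚ)) N (top n k)) =
      (((n : ℚ) + 1) ^ 2 - ((n : ℚ) - 2 * k - 1) ^ 2) * ((N : ℚ) + 1) * G (top n k) := by
    field_simp at h2
    linear_combination -h2
  have h4 : ((n : ℚ) + 1) ^ 2 - ((n : ℚ) - 2 * k - 1) ^ 2 = 4 * N := by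
    rw [hNq]; ring
  rw [h4] at h3
  linear_combination h3 / 4

/-- The sum over all shapes. -/
theorem uni_toggle (n : ℕ) (F : Finset (Fin m → ℕ)) (hF : ∀ y, y ∈ F ↔ y ∈ Vs n m) :
    ∑ y ∈ F, hatA n y = 0 := by
  classical
  unfold hatA
  rw [sum_sub_distrib, sum_comm, sum_comm (s := F) (t := univ), ← sum_sub_distrib]
  apply sum_eq_zero
  intro i _
  rw [sub_eq_zero, ← sum_filter, ← sum_filter]
  apply sum_nbij' (fun y => up i y) (fun y => dn i y)
  · intro y hy
    rw [mem_filter, hF] at hy ⊢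
    refine ⟨hy.2, by simp [up], ?_⟩
    rw [dn_up]; exact hy.1
  · intro y hy
    rw [mem_filter, hF] at hy ⊢
    refine ⟨hy.2.2, ?_⟩
    rw [up_dn hy.2.1]; exact hy.1
  · intro y _
    exact dn_up i y
  · intro y hy
    rw [mem_filter] at hy
    exact up_dn hy.2.1
  · intro y _
    unfold up
    rw [Function.update_self, Nat.add_sub_cancel]

/-- The average of the down-degree over all shapes. -/
theorem uni_avg {n k : ℕ} (hk : 2 * k < n) (F : Finset (Fin (k + 1) → ℕ))
    (hF : ∀ y, y ∈ F ↔ y ∈ Vs n (k + 1)) :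
    (∑ y ∈ F, (ddeg n y : ℚ)) / (F.card : ℚ) = ((k : ℚ) + 1) * ((n : ℚ) - k) / ((n : ℚ) + 1) := by
  classical
  have h1 := uni_toggle n F hF
  have h2 : ∑ y ∈ F, hatA n y = 4 * ∑ y ∈ F, (ddeg n y : ℚ) - ((n : ℚ) + 1) * (F.card : ℚ) +
      ((n : ℚ) - 2 * k - 1) * ((F.filter (fun y => 2 ≤ y (Fin.last k))).card : ℚ) := by
    rw [sum_congr rfl (fun y hy => local_id hk ((hF y).1 hy)), sum_add_distrib,
      sum_sub_distrib, ← mul_sum, ← mul_sum, sum_const, nsmul_eq_mul, card_filter]
    push_cast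
    ring
  have hc1 : F.card = (Vs n (k + 1)).ncard := by
    rw [← Set.ncard_coe_finset]
    congr 1
    ext y
    rw [mem_coe, hF]
  have hc2 : (F.filter (fun y => 2 ≤ y (Fin.last k))).card =
      {y | y ∈ Vs n (k + 1) ∧ 2 ≤ y (Fin.last k)}.ncard := by
    rw [← Set.ncard_coe_finset]
    congr 1
    ext y
    rw [mem_coe, mem_filter, hF]
    rfl
  have h3 := two_prob n k hk
  rw [← hc1, ← hc2] at h3
  have hpos : (F.card : ℚ) ≠ 0 := by
    have : top n k ∈ F := (hF _).2 (top_mem hk)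
    have : 0 < F.card := card_pos.2 ⟨_, this⟩
    exact_mod_cast this.ne'
  have hn1 : (n : ℚ) + 1 ≠ 0 := by positivity
  rw [h1] at h2
  rw [div_eq_div_iff hpos hn1]
  linear_combination (-(n : ℚ) - 1) / 4 * h2 - ((n : ℚ) - 2 * k - 1) / 4 * h3

end Pool.Agent.N363.CDE
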