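import Pool.Agent.N363.CDE.Count

/-!
# The local identity

The down-degree of a shape is, up to a constant and a multiple of the indicator function of the
shapes whose last row has at least two boxes, a difference of sums over the addable and over the
removable boxes.
-/

set_option autoImplicit false

namespace Pool.Agent.N363.CDE

open Finset

/-- The weight of the box in row `i` and diagonal `c`. -/
def W (n : ℕ) (i c : ℕ) : ℚ := if c = 0 then 2 * (i : ℚ) - n - 1 else 2 * (2 * (i : ℚ) + c - n)

theorem tele (n : ℕ) (Y : ℕ → ℕ) (hdec : ∀ j, Y (j + 1) = 0 ∨ Y (j + 1) < Y j) (j : ℕ) :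
    ∑ i ∈ range (j + 1), (if i = 0 ∨ Y i + 2 ≤ Y (i - 1) then W n i (Y i) else 0) -
      ∑ i ∈ range j, (if 0 < Y i ∧ (Y (i + 1) = 0 ∨ Y (i + 1) + 1 < Y i) then
        W n i (Y i - 1) + 4 else 0) =
      if Y j = 0 then -((n : ℚ) + 1) else 2 * (Y j : ℚ) - 2 * n + 2 * j := by
  induction j with
  | zero =>
    simp only [zero_add, sum_range_one, true_or, if_true, range_zero, sum_empty, sub_zero]
    unfold W
    by_cases h : Y 0 = 0
    · simp [h]; ring
    · simp [h]; ring
  | succ j ih =>
    rw [sum_range_succ (fun i => if i = 0 ∨ Y i + 2 ≤ Y (i - 1) then W n i (Y i) else 0) (j + 1),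
      sum_range_succ (fun i => if 0 < Y i ∧ (Y (i + 1) = 0 ∨ Y (i + 1) + 1 < Y i) then
        W n i (Y i - 1) + 4 else 0) j]
    have h1 : ∀ a b c d e : ℚ, a - c = e → a + b - (c + d) = e + b - d := by
      intro a b c d e h; rw [← h]; ring
    rw [h1 _ _ _ _ _ ih]
    have h2 : (j + 1 = 0 ∨ Y (j + 1) + 2 ≤ Y (j + 1 - 1)) ↔ Y (j + 1) + 2 ≤ Y j := by simp
    simp only [h2]
    unfold W
    rcases Nat.eq_zero_or_pos (Y j) with h3 | h3
    · have h4 : Y (j + 1) = 0 := by rcases hdec j with h | h <;> omega
      simp [h3, h4]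
    · rcases Nat.eq_zero_or_pos (Y (j + 1)) with h4 | h4
      · rcases Nat.lt_or_ge (Y j) 2 with h5 | h5
        · have h6 : Y j = 1 := by omega
          simp [h4, h6]
          ring
        · have h7 : Y j - 1 ≠ 0 := by omega
          have h8 : ((Y j - 1 : ℕ) : ℚ) = (Y j : ℚ) - 1 := by
            rw [Nat.cast_sub h3]; simp
          simp only [h4, h3.ne', if_false, h5, if_true, zero_add, h7, h3, true_or,
            and_self, h8]
          push_cast
          ring
      · have h5 : Y (j + 1) < Y j := by rcases hdec j with h | h <;> omega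
        have h7 : Y j - 1 ≠ 0 := by omega
        have h8 : ((Y j - 1 : ℕ) : ℚ) = (Y j : ℚ) - 1 := by
          rw [Nat.cast_sub h3]; simp
        rcases Nat.lt_or_ge (Y j) (Y (j + 1) + 2) with h6 | h6
        · have h9 : Y j = Y (j + 1) + 1 := by omega
          have h10 : ¬ (Y (j + 1) + 1 < Y j) := by omega
          simp only [h3.ne', if_false, h4.ne', not_le.2 h6, h10, or_false, and_false]
          rw [h9]
          push_cast
          ring
        · have h10 : Y (j + 1) + 1 < Y j := by omega
          simp only [h3.ne', if_false, h4.ne', h6, if_true, h10, or_true, h3, and_self, h7, h8]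
          push_cast
          ring

variable {m : ℕ}

theorem Str_up_iff {y : Fin m → ℕ} (h : Str y) (i : Fin m) :
    Str (up i y) ↔ ∀ j : Fin m, (j : ℕ) + 1 = i → y i + 2 ≤ y j := by
  constructor
  · intro h1 j hj
    have hji : j < i := by rw [Fin.lt_def]; omega
    have h2 := h1 j i hji
    unfold up at h2
    rw [Function.update_self, Function.update_of_ne hji.ne] at h2
    omega
  · intro h1 a b hab
    unfold up
    by_cases hb : b = i
    · subst hb
      rw [Function.update_self, Function.update_of_ne hab.ne]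
      right
      rw [Fin.lt_def] at hab
      obtain ⟨c, hc⟩ : ∃ c : Fin m, (c : ℕ) + 1 = b := ⟨⟨b - 1, by omega⟩, by simp; omega⟩
      have h2 := h1 c hc
      rcases eq_or_ne a c with h3 | h3
      · subst h3; omega
      · have h4 : a < c := by
          rw [Fin.lt_def]
          have : (a : ℕ) ≠ c := fun h => h3 (Fin.ext h)
          omega
        rcases h a c h4 with h5 | h5 <;> omega
    · rw [Function.update_of_ne hb]
      by_cases ha : a = i
      · subst ha
        rw [Function.update_self]
        rcases h a b hab with h2 | h2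
        · left; exact h2
        · right; omega
      · rw [Function.update_of_ne ha]
        exact h a b hab

theorem Str_dn_iff {y : Fin m → ℕ} (h : Str y) (i : Fin m) (hi : 0 < y i) :
    Str (dn i y) ↔ ∀ j : Fin m, (j : ℕ) = i + 1 → y j = 0 ∨ y j + 1 < y i := by
  constructor
  · intro h1 j hj
    have hij : i < j := by rw [Fin.lt_def]; omega
    have h2 := h1 i j hij
    unfold dn at h2
    rw [Function.update_self, Function.update_of_ne hij.ne'] at h2
    omega
  · intro h1 a b hab
    unfold dn
    by_cases hb : b = i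
    · subst hb
      rw [Function.update_self, Function.update_of_ne hab.ne]
      rcases h a b hab with h2 | h2
      · omega
      · right; omega
    · rw [Function.update_of_ne hb]
      by_cases ha : a = i
      · subst ha
        rw [Function.update_self]
        rw [Fin.lt_def] at hab
        obtain ⟨c, hc⟩ : ∃ c : Fin m, (c : ℕ) = a + 1 := ⟨⟨a + 1, by omega⟩, rfl⟩
        have h2 := h1 c hc
        rcases eq_or_ne c b with h3 | h3
        · subst h3; omega
        · have h4 : c < b := by
            rw [Fin.lt_def]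
            have : (c : ℕ) ≠ b := fun h => h3 (Fin.ext h)
            omega
          rcases h c b h4 with h5 | h5 <;> omega
      · rw [Function.update_of_ne ha]
        exact h a b hab

open Classical in
/-- The sum over the addable boxes minus the sum over the removable boxes. -/
noncomputable def hatA (n : ℕ) (y : Fin m → ℕ) : ℚ :=
  (∑ i : Fin m, if up i y ∈ Vs n m then W n i (y i) else 0) -
    ∑ i : Fin m, if 0 < y i ∧ dn i y ∈ Vs n m then W n i (y i - 1) else 0

open Classical in
/-- The down-degree. -/
noncomputable def ddeg (n : ℕ) (y : Fin m → ℕ) : ℕ :=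
  (univ.filter (fun i : Fin m => 0 < y i ∧ dn i y ∈ Vs n m)).card

theorem dn_bd {n : ℕ} {y : Fin m → ℕ} (h : ∀ i : Fin m, y i ≤ n - 2 * (i : ℕ)) (i j : Fin m) :
    dn i y j ≤ n - 2 * (j : ℕ) := by
  unfold dn
  by_cases hj : j = i
  · subst hj
    rw [Function.update_self]
    exact (Nat.sub_le _ _).trans (h j)
  · rw [Function.update_of_ne hj]
    exact h j

/-- **The local identity.** -/
theorem local_id {n k : ℕ} (hk : 2 * k < n) {y : Fin (k + 1) → ℕ} (hy : y ∈ Vs n (k + 1)) :
    hatA n y = 4 * (ddeg n y : ℚ) - ((n : ℚ) + 1) +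
      ((n : ℚ) - 2 * k - 1) * (if 2 ≤ y (Fin.last k) then 1 else 0) := by
  classical
  obtain ⟨hb, hs⟩ := hy
  set Y : ℕ → ℕ := fun j => if h : j < k + 1 then y ⟨j, h⟩ else 0 with hY
  have hYy : ∀ i : Fin (k + 1), Y i = y i := fun i => by
    simp only [hY]
    rw [dif_pos i.isLt]
  have hdec : ∀ j, Y (j + 1) = 0 ∨ Y (j + 1) < Y j := by
    intro j
    by_cases h : j + 1 < k + 1
    · have h' : j < k + 1 := by omega
      simp only [hY, dif_pos h, dif_pos h']
      exact hs ⟨j, h'⟩ ⟨j + 1, h⟩ (by rw [Fin.lt_def]; simp)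
    · left
      simp only [hY, dif_neg h]
  have h1 : ∑ i : Fin (k + 1), (if up i y ∈ Vs n (k + 1) then W n i (y i) else 0) =
      ∑ i ∈ range (k + 1), (if i = 0 ∨ Y i + 2 ≤ Y (i - 1) then W n i (Y i) else 0) := by
    rw [← Fin.sum_univ_eq_sum_range
      (fun i => if i = 0 ∨ Y i + 2 ≤ Y (i - 1) then W n i (Y i) else 0)]
    apply sum_congr rfl
    intro i _
    simp only [hYy]
    have hcond : Str (up i y) ↔ ((i : ℕ) = 0 ∨ y i + 2 ≤ Y ((i : ℕ) - 1)) := by
      rw [Str_up_iff hs]
      constructor
      · intro h
        rcases Nat.eq_zero_or_pos (i : ℕ) with h0 | h0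
        · left; exact h0
        · right
          have hlt : (i : ℕ) - 1 < k + 1 := by omega
          have := h ⟨(i : ℕ) - 1, hlt⟩ (by simp; omega)
          simp only [hY, dif_pos hlt]
          exact this
      · rintro (h | h) j hj
        · omega
        · have hji : (i : ℕ) - 1 = j := by omega
          rw [hji, hYy] at h
          exact h
    by_cases hstr : Str (up i y)
    · rw [if_pos (hcond.1 hstr)]
      by_cases hbd : y i < n - 2 * (i : ℕ)
      · rw [if_pos]
        refine ⟨fun j => ?_, hstr⟩
        unfold up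
        by_cases hj : j = i
        · subst hj
          rw [Function.update_self]
          omega
        · rw [Function.update_of_ne hj]
          exact hb j
      · rw [if_neg]
        · have h2 : y i = n - 2 * (i : ℕ) := le_antisymm (hb i) (not_lt.1 hbd)
          have h3 : y i ≠ 0 := by omega
          unfold W
          rw [if_neg h3, h2, Nat.cast_sub (by omega)]
          push_cast
          ring
        · rintro ⟨h2, _⟩
          have := h2 i
          unfold up at this
          rw [Function.update_self] at this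
          omega
    · rw [if_neg (fun h => hstr h.2), if_neg (fun h => hstr (hcond.2 h))]
  have hremc : ∀ i : Fin (k + 1), (0 < y i ∧ dn i y ∈ Vs n (k + 1)) ↔
      (0 < Y i ∧ (Y ((i : ℕ) + 1) = 0 ∨ Y ((i : ℕ) + 1) + 1 < Y i)) := by
    intro i
    rw [hYy]
    refine and_congr_right fun hi => ?_
    have h2 : dn i y ∈ Vs n (k + 1) ↔ Str (dn i y) := ⟨fun h => h.2, fun h => ⟨dn_bd hb i, h⟩⟩
    rw [h2, Str_dn_iff hs i hi]
    constructor
    · intro h
      by_cases hlt : (i : ℕ) + 1 < k + 1
      · have := h ⟨(i : ℕ) + 1, hlt⟩ rfl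
        simp only [hY, dif_pos hlt]
        exact this
      · left
        simp only [hY, dif_neg hlt]
    · intro h j hj
      rw [← hj, hYy] at h
      exact h
  have h2 : ∑ i : Fin (k + 1), (if 0 < y i ∧ dn i y ∈ Vs n (k + 1) then
      W n i (y i - 1) else 0) + 4 * (ddeg n y : ℚ) =
      ∑ i ∈ range (k + 1), (if 0 < Y i ∧ (Y (i + 1) = 0 ∨ Y (i + 1) + 1 < Y i) then
        W n i (Y i - 1) + 4 else 0) := by
    rw [← Fin.sum_univ_eq_sum_range
      (fun i => if 0 < Y i ∧ (Y (i + 1) = 0 ∨ Y (i + 1) + 1 < Y i) then
        W n i (Y i - 1) + 4 else 0)]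
    unfold ddeg
    rw [card_filter]
    push_cast
    rw [mul_sum, ← sum_add_distrib]
    apply sum_congr rfl
    intro i _
    simp only [← hremc]
    simp only [hYy]
    by_cases h : 0 < y i ∧ dn i y ∈ Vs n (k + 1)
    · simp only [if_pos h]; ring
    · simp only [if_neg h]; ring
  have h3 := tele n Y hdec k
  rw [sum_range_succ _ k] at h2
  have hYk1 : Y (k + 1) = 0 := by simp [hY]
  have hYk : Y k = y (Fin.last k) := by
    have := hYy (Fin.last k)
    simpa using this
  unfold hatA
  rw [h1]
  have h4 : ∀ a b c d e f : ℚ, b + 4 * c = d + e → a - d = f →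
      a - b = 4 * c + f - e := by
    intro a b c d e f h5 h6
    linear_combination h6 - h5
  rw [h4 _ _ _ _ _ _ h2 h3, hYk1, hYk]
  unfold W
  rcases Nat.lt_or_ge (y (Fin.last k)) 1 with h5 | h5
  · have h6 : y (Fin.last k) = 0 := by omega
    simp [h6]
    ring
  · rcases Nat.lt_or_ge (y (Fin.last k)) 2 with h6 | h6
    · have h7 : y (Fin.last k) = 1 := by omega
      simp [h7]
      ring
    · have h7 : y (Fin.last k) ≠ 0 := by omega
      have h8 : y (Fin.last k) - 1 ≠ 0 := by omega
      have h9 : ((y (Fin.last k) - 1 : ℕ) : ℚ) = (y (Fin.last k) : ℚ) - 1 := by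
        rw [Nat.cast_sub h5]; simp
      simp only [h7, if_false, true_or, and_true, if_true, h8, h9, h6]
      rw [if_pos (by omega : 0 < y (Fin.last k))]
      ring

end Pool.Agent.N363.CDE
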