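import Pool.Agent.N363.CDE.Fin

/-!
# The CDE property of the trapezoidal shifted Young lattices

For every distribution that is symmetric under toggles the average down-degree is
`(n + 1) / 4 - (n - 2 k - 1) / 4 * p`, where `p` is the probability that the last row has at least
two boxes (`Local.lean`, `toggle_rec`, `uni_toggle`). For the uniform distribution
(`Count.lean`) and for the maximal chain distribution (product formula for the numbers of shifted
standard tableaux, `Prod.lean`) this probability is `(n - 2 k - 1) / (n + 1)`.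
-/

set_option autoImplicit false
open scoped Classical

namespace Pool.Agent.N363.CDE

/-- For n ≥ 1, 2k < n and λ=(n,n−2,…,n−2k), the strict partitions inside λ have average down-degree equal to that of a random element of a random maximal chain (CDE), and this average is ∣λ∣/(n+1). -/
theorem main :
  ∀ (n k : ℕ), 1 ≤ n → 2 * k < n →
  ∀ (V : (Fin (k+1) → ℕ) → Prop),
    (∀ μ, V μ ↔ ((∀ i : Fin (k+1), μ i ≤ n - 2 * (i : ℕ)) ∧
        ∀ i j : Fin (k+1), i < j → μ j = 0 ∨ μ j < μ i)) →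
  ∀ (D : (Fin (k+1) → ℕ) → ℕ),
    (∀ μ, D μ = (Finset.univ.filter
        (fun i : Fin (k+1) => 0 < μ i ∧ V (Function.update μ i (μ i - 1)))).card) →
  ∀ (N : ℕ), N = ∑ i : Fin (k+1), (n - 2 * (i : ℕ)) →
  ∀ (S : (Fin N → Fin (k+1)) → ℕ → Fin (k+1) → ℕ),
    (∀ w j i, S w j i = (Finset.univ.filter
        (fun t : Fin N => (t : ℕ) < j ∧ w t = i)).card) →
  ((∑ μ ∈ Finset.univ.filter (fun μ : Fin (k+1) → Fin (n+1) => V (fun i => (μ i : ℕ))),
        (D (fun i => (μ i : ℕ)) : ℚ)) /
      ((Finset.univ.filter (fun μ : Fin (k+1) → Fin (n+1) => V (fun i => (μ i : ℕ)))).card : ℚ)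
    =
    (∑ w ∈ Finset.univ.filter (fun w : Fin N → Fin (k+1) =>
          (∀ j : ℕ, j ≤ N → V (S w j)) ∧ ∀ i : Fin (k+1), S w N i = n - 2 * (i : ℕ)),
        ∑ j ∈ Finset.range (N+1), (D (S w j) : ℚ)) /
      (((Finset.univ.filter (fun w : Fin N → Fin (k+1) =>
          (∀ j : ℕ, j ≤ N → V (S w j)) ∧ ∀ i : Fin (k+1), S w N i = n - 2 * (i : ℕ))).card : ℚ)
        * ((N : ℚ) + 1))
  ∧
  (∑ μ ∈ Finset.univ.filter (fun μ : Fin (k+1) → Fin (n+1) => V (fun i => (μ i : ℕ))),
        (D (fun i => (μ i : ℕ)) : ℚ)) /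
      ((Finset.univ.filter (fun μ : Fin (k+1) → Fin (n+1) => V (fun i => (μ i : ℕ)))).card : ℚ)
    = (N : ℚ) / ((n : ℚ) + 1)) := by
  intro n k hn hk V hV D hD N hN S hS
  have hVs : ∀ μ, V μ ↔ μ ∈ Vs n (k + 1) := fun μ => hV μ
  have hDd : ∀ μ, D μ = ddeg n μ := by
    intro μ
    rw [hD]
    unfold ddeg
    apply congrArg
    apply Finset.filter_congr
    intro i _
    rw [hVs]
    rfl
  have hSh : ∀ w : Fin N → Fin (k + 1), S w = Sh w := by
    intro w
    funext j i
    exact hS w j i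
  -- the finite set of all shapes
  let e : (Fin (k + 1) → Fin (n + 1)) → (Fin (k + 1) → ℕ) := fun μ i => (μ i : ℕ)
  have he : Function.Injective e := by
    intro μ ν h
    funext i
    exact Fin.ext (congrFun h i)
  let F : Finset (Fin (k + 1) → ℕ) :=
    (Finset.univ.filter (fun μ : Fin (k + 1) → Fin (n + 1) => V (fun i => (μ i : ℕ)))).map ⟨e, he⟩
  have hF : ∀ y, y ∈ F ↔ y ∈ Vs n (k + 1) := by
    intro y
    rw [Finset.mem_map]
    constructor
    · rintro ⟨μ, hμ, rfl⟩
      rw [Finset.mem_filter] at hμ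
      exact (hVs _).1 hμ.2
    · intro hy
      have hb : ∀ i, y i < n + 1 := fun i => by
        have := hy.1 i
        omega
      refine ⟨fun i => ⟨y i, hb i⟩, ?_, rfl⟩
      rw [Finset.mem_filter]
      exact ⟨Finset.mem_univ _, (hVs _).2 hy⟩
  have hsum : ∑ μ ∈ Finset.univ.filter (fun μ : Fin (k + 1) → Fin (n + 1) =>
      V (fun i => (μ i : ℕ))), (D (fun i => (μ i : ℕ)) : ℚ) = ∑ y ∈ F, (ddeg n y : ℚ) := by
    rw [Finset.sum_map]
    apply Finset.sum_congr rfl
    intro μ _
    rw [hDd]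
    rfl
  have hcard : (Finset.univ.filter (fun μ : Fin (k + 1) → Fin (n + 1) =>
      V (fun i => (μ i : ℕ)))).card = F.card := (Finset.card_map _).symm
  have hNt : N = ∑ i, top n k i := hN
  have hNq : (N : ℚ) = ((k : ℚ) + 1) * ((n : ℚ) - k) := by rw [hNt, top_sum hk]
  have hU : (∑ μ ∈ Finset.univ.filter (fun μ : Fin (k + 1) → Fin (n + 1) =>
      V (fun i => (μ i : ℕ))), (D (fun i => (μ i : ℕ)) : ℚ)) /
      ((Finset.univ.filter (fun μ : Fin (k + 1) → Fin (n + 1) =>
        V (fun i => (μ i : ℕ)))).card : ℚ) = (N : ℚ) / ((n : ℚ) + 1) := by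
    rw [hsum, hcard, uni_avg hk F hF, hNq]
  refine ⟨?_, hU⟩
  rw [hU]
  have hcond : ∀ w : Fin N → Fin (k + 1), ((∀ j : ℕ, j ≤ N → V (S w j)) ∧
      ∀ i : Fin (k + 1), S w N i = n - 2 * (i : ℕ)) ↔ Cond (Vs n (k + 1)) w (top n k) := by
    intro w
    rw [hSh]
    unfold Cond
    refine and_congr ?_ ?_
    · exact forall_congr' fun j => forall_congr' fun _ => hVs _
    · constructor
      · intro h
        funext i
        exact h i
      · intro h i
        exact congrFun h i
  have hfilter : Finset.univ.filter (fun w : Fin N → Fin (k + 1) =>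
      (∀ j : ℕ, j ≤ N → V (S w j)) ∧ ∀ i : Fin (k + 1), S w N i = n - 2 * (i : ℕ)) =
      Finset.univ.filter (fun w : Fin N → Fin (k + 1) => Cond (Vs n (k + 1)) w (top n k)) := by
    apply Finset.filter_congr
    intro w _
    exact hcond w
  have hA : ∑ w ∈ Finset.univ.filter (fun w : Fin N → Fin (k + 1) =>
      (∀ j : ℕ, j ≤ N → V (S w j)) ∧ ∀ i : Fin (k + 1), S w N i = n - 2 * (i : ℕ)),
      ∑ j ∈ Finset.range (N + 1), (D (S w j) : ℚ) =
      Ac (Vs n (k + 1)) (fun y => (ddeg n y : ℚ)) N (top n k) := by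
    rw [hfilter, Finset.sum_filter]
    unfold Ac Sm
    apply Finset.sum_congr rfl
    intro w _
    split_ifs
    · apply Finset.sum_congr rfl
      intro j _
      rw [hDd, hSh]
    · rfl
  have hf : ((Finset.univ.filter (fun w : Fin N → Fin (k + 1) =>
      (∀ j : ℕ, j ≤ N → V (S w j)) ∧ ∀ i : Fin (k + 1), S w N i = n - 2 * (i : ℕ))).card : ℚ) =
      fc (Vs n (k + 1)) N (top n k) := by
    rw [hfilter, Finset.card_filter]
    unfold fc Sm
    push_cast
    rfl
  rw [hA, hf]
  exact (chain_avg hk N hNt).symm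

end Pool.Agent.N363.CDE
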