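import Mathlib

/-!
# The product formula for shifted standard tableaux: the recursion

`G y` is the product formula for the number of shifted standard Young tableaux of the shape with
rows `y`. We prove that it satisfies the branching rule.
-/

set_option autoImplicit false

namespace Pool.Agent.N363.CDE

open Finset Polynomial

/-- Lagrange interpolation: the coefficient below the leading one. -/
theorem lag {ι : Type*} [DecidableEq ι] (s : Finset ι) (a b : ι → ℚ) (hb : Set.InjOn b s) :
    ∑ i ∈ s, (∏ j ∈ s, (b i - a j)) / ∏ j ∈ s.erase i, (b i - b j) = ∑ i ∈ s, (b i - a i) := by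
  rcases s.eq_empty_or_nonempty with rfl | hs
  · simp
  have hs0 : 0 < #s := hs.card_pos
  set P : ℚ[X] := ∏ j ∈ s, (X - C (a j)) - ∏ j ∈ s, (X - C (b j)) with hP
  have hm1 : (∏ j ∈ s, (X - C (a j))).Monic := monic_prod_X_sub_C _ _
  have hm2 : (∏ j ∈ s, (X - C (b j))).Monic := monic_prod_X_sub_C _ _
  have hd1 : (∏ j ∈ s, (X - C (a j))).degree = ((#s : ℕ) : WithBot ℕ) := by
    rw [degree_prod]; simp
  have hd2 : (∏ j ∈ s, (X - C (b j))).degree = ((#s : ℕ) : WithBot ℕ) := by
    rw [degree_prod]; simp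
  have hdeg : P.degree < #s := by
    rw [← hd1]
    exact degree_sub_lt_left (by rw [hd1, hd2]) hm1.ne_zero
      (by rw [hm1.leadingCoeff, hm2.leadingCoeff])
  have h1 := Lagrange.coeff_eq_sum hb hdeg
  have h2 : P.coeff (#s - 1) = ∑ i ∈ s, (b i - a i) := by
    rw [hP, coeff_sub, prod_X_sub_C_coeff_card_pred _ _ hs0,
      prod_X_sub_C_coeff_card_pred _ _ hs0, sum_sub_distrib]
    ring
  rw [← h2, h1]
  apply sum_congr rfl
  intro i hi
  congr 1
  rw [hP, eval_sub, eval_prod, eval_prod]
  simp only [eval_sub, eval_X, eval_C]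
  rw [prod_eq_zero (f := fun j => b i - b j) hi (sub_self (b i)), sub_zero]

/-- The identity behind the branching rule. -/
theorem branch {ι : Type*} [DecidableEq ι] (s : Finset ι) (x : ι → ℕ) (hx : ∀ i ∈ s, 1 ≤ x i)
    (hinj : Set.InjOn x s) :
    ∑ i ∈ s, (x i : ℚ) * ∏ j ∈ s.erase i,
      ((((x i : ℚ) - 1 - x j) * ((x i : ℚ) + x j)) / (((x i : ℚ) - x j) * ((x i : ℚ) - 1 + x j)))
      = ∑ i ∈ s, (x i : ℚ) := by
  have hb : Set.InjOn (fun i => (x i : ℚ) * ((x i : ℚ) - 1)) s := by
    intro i hi j hj hij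
    simp only at hij
    have h1 : (1 : ℚ) ≤ x i := by exact_mod_cast hx i hi
    have h2 : (1 : ℚ) ≤ x j := by exact_mod_cast hx j hj
    have h3 : ((x i : ℚ) - x j) * ((x i : ℚ) + x j - 1) = 0 := by linear_combination hij
    rcases mul_eq_zero.1 h3 with h | h
    · apply hinj hi hj
      have : (x i : ℚ) = x j := by linarith
      exact_mod_cast this
    · linarith
  have h := lag s (fun i => (x i : ℚ) * ((x i : ℚ) + 1)) (fun i => (x i : ℚ) * ((x i : ℚ) - 1)) hb
  have h2 : ∑ i ∈ s, (x i : ℚ) = (-1 / 2) *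
      ∑ i ∈ s, ((x i : ℚ) * ((x i : ℚ) - 1) - (x i : ℚ) * ((x i : ℚ) + 1)) := by
    rw [mul_sum]
    apply sum_congr rfl
    intro i _
    ring
  rw [h2, ← h, mul_sum]
  apply sum_congr rfl
  intro i hi
  rw [← mul_prod_erase s _ hi, mul_div_assoc, ← mul_assoc, ← prod_div_distrib]
  congr 1
  · ring
  · apply prod_congr rfl
    intro j _
    congr 1 <;> ring

/-- The factor of two rows. -/
def q (a b : ℕ) : ℚ := if b = 0 then 1 else ((a : ℚ) - b) / ((a : ℚ) + b)

variable {m : ℕ}

/-- The rows are strictly decreasing until they are `0`. -/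
def Str (y : Fin m → ℕ) : Prop := ∀ i j : Fin m, i < j → y j = 0 ∨ y j < y i

/-- Remove a box from row `i`. -/
def dn (i : Fin m) (y : Fin m → ℕ) : Fin m → ℕ := Function.update y i (y i - 1)

/-- Add a box to row `i`. -/
def up (i : Fin m) (y : Fin m → ℕ) : Fin m → ℕ := Function.update y i (y i + 1)

/-- The product over the pairs of rows. -/
def P (y : Fin m → ℕ) : ℚ := ∏ p, ∏ r, if p < r then q (y p) (y r) else 1

/-- The product formula. -/
noncomputable def G (y : Fin m → ℕ) : ℚ :=
  ((∑ i, y i).factorial : ℚ) / (∏ i, ((y i).factorial : ℚ)) * P y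

theorem prod_split (i : Fin m) (h : Fin m → Fin m → ℚ) (hd : ∀ p, h p p = 1) :
    ∏ p, ∏ r, h p r = (∏ p ∈ univ.erase i, ∏ r ∈ univ.erase i, h p r) *
      ∏ r ∈ univ.erase i, (h i r * h r i) := by
  rw [← mul_prod_erase univ _ (mem_univ i), ← mul_prod_erase univ (h i) (mem_univ i), hd, one_mul]
  have h1 : ∏ p ∈ univ.erase i, ∏ r, h p r =
      (∏ p ∈ univ.erase i, h p i) * ∏ p ∈ univ.erase i, ∏ r ∈ univ.erase i, h p r := by
    rw [← prod_mul_distrib]
    apply prod_congr rfl
    intro p _
    rw [← mul_prod_erase univ _ (mem_univ i)]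
  rw [h1, prod_mul_distrib]
  ring

/-- The factor of the rows `i` and `r` if row `i` has length `a`. -/
def phi (y : Fin m → ℕ) (i : Fin m) (a : ℕ) (r : Fin m) : ℚ :=
  if i < r then q a (y r) else q (y r) a

/-- The product over the pairs of rows different from row `i`. -/
def oth (y : Fin m → ℕ) (i : Fin m) : ℚ :=
  ∏ p ∈ univ.erase i, ∏ r ∈ univ.erase i, if p < r then q (y p) (y r) else 1

theorem P_eq (y : Fin m → ℕ) (i : Fin m) :
    P y = oth y i * ∏ r ∈ univ.erase i, phi y i (y i) r := by
  unfold P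
  rw [prod_split i _ (fun p => by simp)]
  congr 1
  apply prod_congr rfl
  intro r hr
  unfold phi
  have hne : r ≠ i := ne_of_mem_erase hr
  rcases lt_or_gt_of_ne hne with h | h
  · simp [h, h.not_gt]
  · simp [h, h.not_gt]

theorem P_update (y : Fin m → ℕ) (i : Fin m) (a : ℕ) :
    P (Function.update y i a) = oth y i * ∏ r ∈ univ.erase i, phi y i a r := by
  rw [P_eq _ i]
  congr 1
  · unfold oth
    apply prod_congr rfl
    intro p hp
    apply prod_congr rfl
    intro r hr
    rw [Function.update_of_ne (ne_of_mem_erase hp), Function.update_of_ne (ne_of_mem_erase hr)]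
  · apply prod_congr rfl
    intro r hr
    unfold phi
    rw [Function.update_self, Function.update_of_ne (ne_of_mem_erase hr)]

/-- The support. -/
def supp (y : Fin m → ℕ) : Finset (Fin m) := univ.filter (fun i => 0 < y i)

theorem mem_supp {y : Fin m → ℕ} {i : Fin m} : i ∈ supp y ↔ 0 < y i := by simp [supp]

theorem Str.inj {y : Fin m → ℕ} (h : Str y) : Set.InjOn y (supp y) := by
  intro i hi j hj hij
  rw [mem_coe, mem_supp] at hi hj
  by_contra hne
  rcases lt_or_gt_of_ne hne with h1 | h1
  · rcases h i j h1 with h2 | h2 <;> omega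
  · rcases h j i h1 with h2 | h2 <;> omega

/-- The ratio. -/
noncomputable def rat (a b : ℚ) : ℚ := ((a - 1 - b) * (a + b)) / ((a - b) * (a - 1 + b))

theorem phi_ratio {y : Fin m → ℕ} (h : Str y) {i r : Fin m} (hi : 0 < y i) (hr : r ≠ i) :
    phi y i (y i - 1) r = phi y i (y i) r * if 0 < y r then rat (y i) (y r) else 1 := by
  have hi' : (1 : ℚ) ≤ y i := by exact_mod_cast hi
  have hc : ((y i - 1 : ℕ) : ℚ) = (y i : ℚ) - 1 := by
    rw [Nat.cast_sub hi]; simp
  unfold phi rat
  rcases lt_or_gt_of_ne hr with h1 | h1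
  · -- `r < i`
    rw [if_neg h1.not_gt, if_neg h1.not_gt]
    have h2 : y i < y r := by
      rcases h r i h1 with h2 | h2
      · omega
      · exact h2
    have h2' : (y i : ℚ) < y r := by exact_mod_cast h2
    have hr0 : 0 < y r := by omega
    rw [if_pos hr0]
    unfold q
    rw [if_neg hi.ne']
    have e1 : (y r : ℚ) - y i ≠ 0 := by linarith
    have e2 : (y r : ℚ) + y i ≠ 0 := by linarith
    have e3 : (y i : ℚ) - y r ≠ 0 := by linarith
    have e4 : (y i : ℚ) - 1 + y r ≠ 0 := by linarith
    by_cases h3 : y i - 1 = 0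
    · rw [if_pos h3]
      have h4 : (y i : ℚ) = 1 := by
        have : y i = 1 := by omega
        exact_mod_cast this
      rw [h4] at e1 e2 e3 e4 ⊢
      field_simp
      ring
    · rw [if_neg h3, hc]
      have e5 : (y r : ℚ) + ((y i : ℚ) - 1) ≠ 0 := by linarith
      field_simp
      ring
  · -- `i < r`
    rw [if_pos h1, if_pos h1]
    unfold q
    by_cases h3 : y r = 0
    · simp [h3]
    · rw [if_neg h3, if_neg h3, if_pos (Nat.pos_of_ne_zero h3), hc]
      have h2 : y r < y i := by
        rcases h i r h1 with h2 | h2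
        · exact absurd h2 h3
        · exact h2
      have h2' : (y r : ℚ) < y i := by exact_mod_cast h2
      have h4 : (1 : ℚ) ≤ y r := by exact_mod_cast Nat.one_le_iff_ne_zero.2 h3
      have e1 : (y i : ℚ) - y r ≠ 0 := by linarith
      have e2 : (y i : ℚ) + y r ≠ 0 := by linarith
      have e4 : (y i : ℚ) - 1 + y r ≠ 0 := by linarith
      field_simp

theorem P_dn {y : Fin m → ℕ} (h : Str y) {i : Fin m} (hi : 0 < y i) :
    P (dn i y) = P y * ∏ r ∈ (supp y).erase i, rat (y i) (y r) := by
  unfold dn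
  rw [P_update, P_eq y i, mul_assoc]
  congr 1
  have h1 : ∏ r ∈ (supp y).erase i, rat (y i) (y r) =
      ∏ r ∈ univ.erase i, if 0 < y r then rat (y i) (y r) else 1 := by
    rw [← prod_filter]
    apply prod_congr _ (fun _ _ => rfl)
    ext r
    simp [supp]
  rw [h1, ← prod_mul_distrib]
  apply prod_congr rfl
  intro r hr
  exact phi_ratio h hi (ne_of_mem_erase hr)

theorem sum_dn {y : Fin m → ℕ} {i : Fin m} (hi : 0 < y i) : ∑ j, dn i y j + 1 = ∑ j, y j := by
  unfold dn
  rw [← add_sum_erase univ _ (mem_univ i), ← add_sum_erase univ y (mem_univ i),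
    Function.update_self]
  have h1 : ∑ j ∈ univ.erase i, Function.update y i (y i - 1) j = ∑ j ∈ univ.erase i, y j := by
    apply sum_congr rfl
    intro j hj
    rw [Function.update_of_ne (ne_of_mem_erase hj)]
  rw [h1]
  omega

theorem prod_fact_dn {y : Fin m → ℕ} {i : Fin m} (hi : 0 < y i) :
    (y i : ℚ) * ∏ j, ((dn i y j).factorial : ℚ) = ∏ j, ((y j).factorial : ℚ) := by
  unfold dn
  rw [← mul_prod_erase univ _ (mem_univ i),
    ← mul_prod_erase univ (fun j => ((y j).factorial : ℚ)) (mem_univ i), Function.update_self,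
    ← mul_assoc]
  congr 1
  · have := Nat.mul_factorial_pred hi.ne'
    exact_mod_cast this
  · apply prod_congr rfl
    intro j hj
    rw [Function.update_of_ne (ne_of_mem_erase hj)]

/-- **The branching rule** for the product formula. -/
theorem G_rec {y : Fin m → ℕ} (h : Str y) (h0 : 0 < ∑ i, y i) :
    G y = ∑ i, if 0 < y i then G (dn i y) else 0 := by
  have h1 : ∀ i ∈ supp y, G (dn i y) = (G y / (∑ i, (y i : ℚ))) *
      ((y i : ℚ) * ∏ r ∈ (supp y).erase i, rat (y i) (y r)) := by
    intro i hi
    rw [mem_supp] at hi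
    unfold G
    rw [P_dn h hi, ← prod_fact_dn hi]
    have h2 := sum_dn hi
    have h3 : ((∑ j, y j).factorial : ℚ) =
        (∑ j, (y j : ℚ)) * ((∑ j, dn i y j).factorial : ℚ) := by
      rw [← h2, Nat.factorial_succ]
      push_cast
      congr 1
      have h4 : ((∑ j, dn i y j + 1 : ℕ) : ℚ) = ((∑ j, y j : ℕ) : ℚ) := by rw [h2]
      push_cast at h4
      exact h4
    rw [h3]
    have e1 : (∑ j, (y j : ℚ)) ≠ 0 := by
      have : (0 : ℚ) < ((∑ j, y j : ℕ) : ℚ) := by exact_mod_cast h0
      push_cast at this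
      exact this.ne'
    have e2 : (y i : ℚ) ≠ 0 := by exact_mod_cast hi.ne'
    have e3 : ∏ j, ((dn i y j).factorial : ℚ) ≠ 0 := by
      rw [prod_ne_zero_iff]
      intro j _
      exact_mod_cast Nat.factorial_ne_zero _
    field_simp
  have h2 := branch (supp y) y (fun i hi => mem_supp.1 hi) h.inj
  have h3 : ∑ i ∈ supp y, (y i : ℚ) = ∑ i, (y i : ℚ) := by
    apply sum_subset (subset_univ _)
    intro i _ hi
    rw [mem_supp] at hi
    have : y i = 0 := by omega
    simp [this]
  have e1 : (∑ j, (y j : ℚ)) ≠ 0 := by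
    have : (0 : ℚ) < ((∑ j, y j : ℕ) : ℚ) := by exact_mod_cast h0
    push_cast at this
    exact this.ne'
  calc G y = (G y / (∑ i, (y i : ℚ))) * ∑ i ∈ supp y, (y i : ℚ) := by
        rw [h3]; field_simp
    _ = ∑ i ∈ supp y, G (dn i y) := by
        rw [← h2, mul_sum]
        apply sum_congr rfl
        intro i hi
        rw [h1 i hi]
        rfl
    _ = ∑ i, if 0 < y i then G (dn i y) else 0 := by
        rw [← sum_filter]
        rfl

/-- If removing a box from row `i` makes it as long as another (nonempty) row, the product formula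
gives `0`. -/
theorem G_dn_eq_zero {y : Fin m → ℕ} (h : Str y) {i : Fin m} (hi : 0 < y i)
    (hn : ¬ Str (dn i y)) : G (dn i y) = 0 := by
  have h1 : ∃ r, i < r ∧ 0 < y r ∧ y r = y i - 1 := by
    by_contra hcon
    push Not at hcon
    apply hn
    intro a b hab
    unfold dn
    by_cases hb : b = i
    · subst hb
      rw [Function.update_self, Function.update_of_ne hab.ne]
      rcases h a b hab with h1 | h1
      · left; omega
      · right; omega
    · rw [Function.update_of_ne hb]
      by_cases ha : a = i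
      · subst ha
        rw [Function.update_self]
        rcases h a b hab with h1 | h1
        · left; exact h1
        · by_cases h0 : y b = 0
          · left; exact h0
          · right
            have := hcon b hab (Nat.pos_of_ne_zero h0)
            omega
      · rw [Function.update_of_ne ha]
        exact h a b hab
  obtain ⟨r, h2, h3, h4⟩ := h1
  unfold G
  rw [show P (dn i y) = 0 from ?_, mul_zero]
  unfold P
  apply prod_eq_zero (mem_univ i)
  apply prod_eq_zero (mem_univ r)
  rw [if_pos h2]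
  unfold dn q
  rw [Function.update_self, Function.update_of_ne h2.ne', if_neg h3.ne', h4, sub_self, zero_div]

end Pool.Agent.N363.CDE
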